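import Pool.Agent.N20.EN.Stm
import Pool.Agent.Y63.NV.Tog

/-!
# Project EN (helper20): task TOGO, cancellation over the chains inside a subgroup
-/

open scoped Classical BigOperators

set_option autoImplicit false
set_option linter.unusedSectionVars false

noncomputable section

namespace Pool.Agent.N663.ENTOG

open Pool.Agent.Y63.KR
open Pool.Agent.Y63.NV
open Pool.Agent.N20.EN (S_TOGO)

theorem toggle_le {p : ℕ} {Γ : Type} [Group Γ] [Finite Γ] {M R : Subgroup Γ}
    {σ : Set (Subgroup Γ)} (hσ : IsPChain p σ) (hM : ∀ P ∈ σ, P ≤ M) (hRM : R ≤ M) :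
    ∀ P ∈ toggle R σ, P ≤ M := by
  have ht : toggled R σ ≤ M := by
    refine sup_le ?_ hRM
    rcases lower_cases hσ.chain R with h | h
    · rw [h]; exact bot_le
    · exact hM _ h.1
  intro P hP
  unfold toggle at hP
  split_ifs at hP with h
  · exact hM P hP.1
  · rcases hP with rfl | hP
    · exact ht
    · exact hM P hP

theorem TOGO : S_TOGO := by
  intro p _ Γ _ _ M R w hR hR1 hRM
  have : Fintype {σ : Set (Subgroup Γ) // IsPChain p σ ∧ ∀ P ∈ σ, P ≤ M} := Fintype.ofFinite _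
  rw [finsum_eq_sum_of_fintype]
  set f : {σ : Set (Subgroup Γ) // IsPChain p σ ∧ ∀ P ∈ σ, P ≤ M} → ℤ := fun σ =>
    (-1) ^ σ.1.ncard * w (chainStabilizer σ.1 ⊓ Subgroup.normalizer (R : Set Γ)) with hf
  have h1 : ∀ σ : {σ : Set (Subgroup Γ) // IsPChain p σ ∧ ∀ P ∈ σ, P ≤ M},
      (-1) ^ σ.1.ncard * (if R ≤ chainStabilizer σ.1 then
        w (chainStabilizer σ.1 ⊓ Subgroup.normalizer (R : Set Γ)) else 0) =
      if R ≤ chainStabilizer σ.1 then f σ else 0 := by
    intro σ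
    by_cases h : R ≤ chainStabilizer σ.1
    · rw [if_pos h, if_pos h]
    · rw [if_neg h, if_neg h, mul_zero]
  rw [Finset.sum_congr rfl fun σ _ => h1 σ, ← Finset.sum_filter]
  refine Finset.sum_involution
    (fun σ hσ => ⟨toggle R σ.1,
      (stab_le_toggle hR hR1 σ.2.1 (Finset.mem_filter.mp hσ).2).1,
      toggle_le σ.2.1 σ.2.2 hRM⟩)
    ?_ ?_ ?_ ?_
  · intro σ hσ
    have hσ1 := (Finset.mem_filter.mp hσ).2
    have h3 := (stab_toggle hR hR1 σ.2.1 hσ1).2
    simp only [hf]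
    rw [ncard_toggle, h3]
    ring
  · intro σ hσ _ h
    have h1 : toggle R σ.1 = σ.1 := congrArg Subtype.val h
    have h2 := ncard_toggle R σ.1
    rw [h1] at h2
    have h3 : ((-1 : ℤ)) ^ σ.1.ncard ≠ 0 := pow_ne_zero _ (by norm_num)
    omega
  · intro σ hσ
    rw [Finset.mem_filter]
    exact ⟨Finset.mem_univ _, (stab_toggle hR hR1 σ.2.1 (Finset.mem_filter.mp hσ).2).1⟩
  · intro σ hσ
    apply Subtype.ext
    exact toggle_toggle R σ.1

end Pool.Agent.N663.ENTOG
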