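import Pool.Agent.N587.IC.Stm

/-!
# Project IC: isomorphism of countable substructures is an analytic relation
-/

set_option autoImplicit false

namespace Pool.Agent.N663.IC

open Set MeasureTheory Pool.Agent.N587.IC

/-- the codes of the isomorphisms -/
def D {P : Type} (g : ℕ → P → ℂ) (C : Set ℕ) (ν : ℕ → ℕ) (R : (j : ℕ) → Set (Fin (ν j) → ℂ)) :
    Set ((P × P) × (ℕ × ℕ → Bool)) :=
  {x | (∀ i, ∃ j, x.2 (i, j) = true) ∧ (∀ j, ∃ i, x.2 (i, j) = true) ∧
    (∀ i j i' j', x.2 (i, j) = true → x.2 (i', j') = true →
      (g i x.1.1 = g i' x.1.1 ↔ g j x.1.2 = g j' x.1.2)) ∧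
    (∀ i, i ∈ C → x.2 (i, i) = true) ∧
    ∀ (l : ℕ) (u w : Fin (ν l) → ℕ), (∀ a, x.2 (u a, w a) = true) →
      ((fun a => g (u a) x.1.1) ∈ R l ↔ (fun a => g (w a) x.1.2) ∈ R l)}

theorem measurable_D {P : Type} [TopologicalSpace P] [PolishSpace P] [MeasurableSpace P] [BorelSpace P]
    (g : ℕ → P → ℂ) (hg : ∀ i, Measurable (g i)) (C : Set ℕ) (ν : ℕ → ℕ)
    (R : (j : ℕ) → Set (Fin (ν j) → ℂ)) (hR : ∀ j, MeasurableSet (R j)) :
    MeasurableSet (D g C ν R) := by
  have hr : ∀ i j, Measurable fun x : (P × P) × (ℕ × ℕ → Bool) => x.2 (i, j) = true := by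
    intro i j
    apply measurableSet_setOfPred.1
    have h1 : Measurable fun x : (P × P) × (ℕ × ℕ → Bool) => x.2 (i, j) :=
      (measurable_pi_apply (i, j)).comp measurable_snd
    exact h1 (measurableSet_singleton true)
  have hp : ∀ i, Measurable fun x : (P × P) × (ℕ × ℕ → Bool) => g i x.1.1 := fun i =>
    (hg i).comp (measurable_fst.comp measurable_fst)
  have hq : ∀ i, Measurable fun x : (P × P) × (ℕ × ℕ → Bool) => g i x.1.2 := fun i =>
    (hg i).comp (measurable_snd.comp measurable_fst)
  apply measurableSet_setOfPred.2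
  refine Measurable.and (Measurable.forall fun i => Measurable.exists fun j => hr i j)
    (Measurable.and (Measurable.forall fun j => Measurable.exists fun i => hr i j)
    (Measurable.and ?_ (Measurable.and ?_ ?_)))
  · refine Measurable.forall fun i => Measurable.forall fun j => Measurable.forall fun i' =>
      Measurable.forall fun j' => (hr i j).imp ((hr i' j').imp (Measurable.iff ?_ ?_))
    · exact measurableSet_setOfPred.1 (measurableSet_eq_fun (hp i) (hp i'))
    · exact measurableSet_setOfPred.1 (measurableSet_eq_fun (hq j) (hq j'))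
  · exact Measurable.forall fun i => Measurable.imp measurable_const (hr i i)
  · refine Measurable.forall fun l => Measurable.forall fun u => Measurable.forall fun w =>
      Measurable.imp (Measurable.forall fun a => hr (u a) (w a)) (Measurable.iff ?_ ?_)
    · have h1 : Measurable fun x : (P × P) × (ℕ × ℕ → Bool) => fun a => g (u a) x.1.1 :=
        measurable_pi_lambda _ fun a => hp (u a)
      exact measurableSet_setOfPred.1 (h1 (hR l))
    · have h1 : Measurable fun x : (P × P) × (ℕ × ℕ → Bool) => fun a => g (w a) x.1.2 :=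
        measurable_pi_lambda _ fun a => hq (w a)
      exact measurableSet_setOfPred.1 (h1 (hR l))

theorem t_AR : S_AR := by
  intro P _ _ _ _ g hg C ν R hR
  have : PolishSpace (ℕ × ℕ → Bool) :=
    { (inferInstance : SecondCountableTopology (ℕ × ℕ → Bool)),
      (inferInstance : TopologicalSpace.IsCompletelyMetrizableSpace (ℕ × ℕ → Bool)) with }
  have hD : AnalyticSet (D g C ν R) := (measurable_D g hg C ν R hR).analyticSet
  have key : {p : P × P | ∃ σ : range (fun i => g i p.1) ≃ range (fun i => g i p.2),
      IsoAt g C R p.1 p.2 σ} = Prod.fst '' D g C ν R := by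
    ext ⟨p, q⟩
    simp only [mem_ofPred_eq, mem_image, Prod.exists, exists_and_right, exists_eq_right]
    constructor
    · rintro ⟨σ, h1, h2⟩
      classical
      refine ⟨fun ij => decide ((σ ⟨g ij.1 p, mem_range_self ij.1⟩ : ℂ) = g ij.2 q), ?_, ?_, ?_, ?_, ?_⟩
      · intro i
        obtain ⟨j, hj⟩ := (σ ⟨g i p, mem_range_self i⟩).2
        exact ⟨j, by simpa using hj.symm⟩
      · intro j
        obtain ⟨i, hi⟩ := (σ.symm ⟨g j q, mem_range_self j⟩).2
        refine ⟨i, ?_⟩
        have h3 : (⟨g i p, mem_range_self i⟩ : range (fun i => g i p)) =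
            σ.symm ⟨g j q, mem_range_self j⟩ := Subtype.ext hi
        simp only [decide_eq_true_eq]
        rw [h3, Equiv.apply_symm_apply]
      · intro i j i' j' hij hij'
        simp only [decide_eq_true_eq] at hij hij'
        show g i p = g i' p ↔ g j q = g j' q
        rw [← hij, ← hij']
        constructor
        · intro h
          have h3 : (⟨g i p, mem_range_self i⟩ : range (fun i => g i p)) =
            ⟨g i' p, mem_range_self i'⟩ := Subtype.ext h
          rw [h3]
        · intro h
          have h3 := σ.injective (Subtype.ext h)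
          exact congrArg Subtype.val h3
      · intro i hi
        simpa using h1 i hi
      · intro l u w huw
        have h3 := h2 l (fun a => ⟨g (u a) p, mem_range_self (u a)⟩)
        have h4 : (fun a => (σ ⟨g (u a) p, mem_range_self (u a)⟩ : ℂ)) = fun a => g (w a) q := by
          funext a
          simpa using huw a
        rw [h4] at h3
        exact h3
    · rintro ⟨r, h1, h2, h3, h4, h5⟩
      simp only at h1 h2 h3 h4 h5
      -- choose indices
      have hidx : ∀ x : range (fun i => g i p), ∃ i j, g i p = x ∧ r (i, j) = true := by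
        rintro ⟨_, i, rfl⟩
        obtain ⟨j, hj⟩ := h1 i
        exact ⟨i, j, rfl, hj⟩
      choose fi fj hfi hfr using hidx
      let τ : range (fun i => g i p) → range (fun i => g i q) := fun x =>
        ⟨g (fj x) q, mem_range_self (fj x)⟩
      have hτ : ∀ i j, r (i, j) = true → ∀ hx : g i p ∈ range (fun i => g i p),
          (τ ⟨g i p, hx⟩ : ℂ) = g j q := by
        intro i j hij hx
        exact (h3 _ _ _ _ (hfr ⟨g i p, hx⟩) hij).1 (hfi ⟨g i p, hx⟩)
      have hτi : Function.Injective τ := by
        intro x y hxy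
        have h6 : g (fj x) q = g (fj y) q := congrArg Subtype.val hxy
        have h7 := (h3 _ _ _ _ (hfr x) (hfr y)).2 h6
        rw [hfi, hfi] at h7
        exact Subtype.ext h7
      have hτs : Function.Surjective τ := by
        rintro ⟨_, j, rfl⟩
        obtain ⟨i, hi⟩ := h2 j
        exact ⟨⟨g i p, mem_range_self i⟩, Subtype.ext (hτ i j hi _)⟩
      refine ⟨Equiv.ofBijective τ ⟨hτi, hτs⟩, ?_, ?_⟩
      · intro i hi
        exact hτ i i (h4 i hi) _
      · intro l v
        have h6 := h5 l (fun a => fi (v a)) (fun a => fj (v a)) (fun a => hfr (v a))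
        have h7 : (fun a => g (fi (v a)) p) = fun a => (v a : ℂ) := by
          funext a
          exact hfi (v a)
        rw [h7] at h6
        exact h6
  rw [key]
  exact hD.image_of_continuous continuous_fst

end Pool.Agent.N663.IC
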